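import Pool.Agent.helper55.NK.Spec

/-!
# LOW: a lower bound of the value
-/

set_option autoImplicit false

namespace Pool.Agent.helper66.NK

open Pool.Agent.NK Finset

theorem LOW_desc (n q t : ℕ) (hq : 1 ≤ q) (hqt : q + t ≤ n + 1) (m : ℝ) (hm : m = n - t + 1)
    (hm0 : 0 < m) (hmq : (q : ℝ) ≤ m) (ρ : ℝ) (hρ : ρ = 1 - ((q : ℝ) - 1) / m) :
    ∀ k : ℕ, k + 1 ≤ t → ρ ^ k * ((n - 1).descFactorial k : ℝ) ≤ ((n - q).descFactorial k : ℝ) := by
  have hq' : (1 : ℝ) ≤ q := by exact_mod_cast hq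
  have hρ0 : 0 ≤ ρ := by
    rw [hρ, sub_nonneg, div_le_one hm0]
    linarith
  intro k
  induction k with
  | zero =>
    intro _
    simp
  | succ k ih =>
    intro hk
    have ih' := ih (by omega)
    rw [Nat.descFactorial_succ, Nat.descFactorial_succ, Nat.cast_mul, Nat.cast_mul]
    have e1 : ((n - 1 - k : ℕ) : ℝ) = n - 1 - k := by
      rw [Nat.sub_sub, Nat.cast_sub (by omega)]
      push_cast
      ring
    have e2 : ((n - q - k : ℕ) : ℝ) = n - q - k := by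
      rw [Nat.sub_sub, Nat.cast_sub (by omega)]
      push_cast
      ring
    rw [e1, e2]
    have hk' : (k : ℝ) + 2 ≤ t := by
      have : k + 2 ≤ t := hk
      exact_mod_cast this
    have h1 : m ≤ (n : ℝ) - 1 - k := by
      rw [hm]
      linarith
    have h2 : ρ * ((n : ℝ) - 1 - k) ≤ n - q - k := by
      rw [hρ, sub_mul, one_mul]
      have h3 : ((q : ℝ) - 1) ≤ ((q : ℝ) - 1) / m * ((n : ℝ) - 1 - k) := by
        rw [div_mul_eq_mul_div, le_div_iff₀ hm0]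
        exact mul_le_mul_of_nonneg_left h1 (by linarith)
      linarith
    have h4 : 0 ≤ ρ ^ k * ((n - 1).descFactorial k : ℝ) := by positivity
    have h5 : 0 ≤ ((n : ℝ) - q - k) := by
      have : ((n - q - k : ℕ) : ℝ) ≥ 0 := Nat.cast_nonneg _
      rw [e2] at this
      exact this
    calc ρ ^ (k + 1) * (((n : ℝ) - 1 - k) * ((n - 1).descFactorial k : ℝ)) =
        (ρ * ((n : ℝ) - 1 - k)) * (ρ ^ k * ((n - 1).descFactorial k : ℝ)) := by ring
      _ ≤ ((n : ℝ) - q - k) * (ρ ^ k * ((n - 1).descFactorial k : ℝ)) :=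
        mul_le_mul_of_nonneg_right h2 h4
      _ ≤ ((n : ℝ) - q - k) * ((n - q).descFactorial k : ℝ) :=
        mul_le_mul_of_nonneg_left ih' h5

theorem LOW_key (t q r m n : ℝ) (T : ℕ) (hT : (T : ℝ) = t - 1) (ht : 2 ≤ t) (hm : m = t * (q - 1) + r)
    (hn : n = t * q + r - 1) (hr : 0 ≤ r) (hrt : r ≤ t) (hq : 1 ≤ q) (hm0 : 0 < m) (hn0 : 0 < n) :
    (1 - 1 / t) ^ T ≤ t * q / n * (1 - (q - 1) / m) ^ T := by
  have ht0 : 0 < t := by linarith
  have ht1 : 0 < t - 1 := by linarith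
  have e1 : 1 - (q - 1) / m = (1 - 1 / t) * (1 + r / ((t - 1) * m)) := by
    field_simp
    rw [hm]
    ring
  rw [e1, mul_pow]
  have hb : 1 + (T : ℝ) * (r / ((t - 1) * m)) ≤ (1 + r / ((t - 1) * m)) ^ T :=
    one_add_mul_le_pow (by
      have : 0 ≤ r / ((t - 1) * m) := by positivity
      linarith) T
  have e2 : (T : ℝ) * (r / ((t - 1) * m)) = r / m := by
    rw [hT]
    field_simp
  rw [e2] at hb
  have hp : 0 ≤ (1 - 1 / t) ^ T := by
    refine pow_nonneg ?_ T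
    rw [sub_nonneg, div_le_one ht0]
    linarith
  have h3 : 1 ≤ t * q / n * (1 + r / m) := by
    have e3 : t * q / n * (1 + r / m) = t * q * (m + r) / (n * m) := by
      field_simp
    rw [e3, le_div_iff₀ (mul_pos hn0 hm0), one_mul, hn]
    have h5 : m ≤ t * q := by
      rw [hm]
      linarith
    nlinarith [mul_nonneg hr (sub_nonneg.2 h5)]
  have h4 : 0 ≤ t * q / n := by positivity
  calc (1 - 1 / t) ^ T = 1 * (1 - 1 / t) ^ T := (one_mul _).symm
    _ ≤ (t * q / n * (1 + r / m)) * (1 - 1 / t) ^ T := mul_le_mul_of_nonneg_right h3 hp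
    _ ≤ (t * q / n * (1 + r / ((t - 1) * m)) ^ T) * (1 - 1 / t) ^ T :=
      mul_le_mul_of_nonneg_right (mul_le_mul_of_nonneg_left hb h4) hp
    _ = t * q / n * ((1 - 1 / t) ^ T * (1 + r / ((t - 1) * m)) ^ T) := by ring

theorem LOW : LOW_stmt := by
  intro n t ht htn
  obtain ⟨q, hqd⟩ : ∃ q, (n + 1) / t = q := ⟨_, rfl⟩
  obtain ⟨r, hrd⟩ : ∃ r, (n + 1) % t = r := ⟨_, rfl⟩
  have ht0 : 0 < t := by omega
  have hdiv : t * q + r = n + 1 := by
    rw [← hqd, ← hrd]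
    exact Nat.div_add_mod (n + 1) t
  have hrt : r < t := by
    rw [← hrd]
    exact Nat.mod_lt _ ht0
  have hq1 : 1 ≤ q := by
    rw [← hqd]
    exact (Nat.one_le_div_iff ht0).2 (by omega)
  have hqt : q + t ≤ n + 1 := by
    rcases Nat.eq_or_lt_of_le hq1 with h | h
    · subst h
      omega
    · obtain ⟨q', rfl⟩ := Nat.exists_eq_add_of_le' (show 2 ≤ q from h)
      obtain ⟨t', rfl⟩ := Nat.exists_eq_add_of_le' ht
      rw [← hdiv]
      nlinarith [Nat.zero_le (t' * q')]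
  have hnR : (n : ℝ) = t * q + r - 1 := by
    have : ((t * q + r : ℕ) : ℝ) = ((n + 1 : ℕ) : ℝ) := by rw [hdiv]
    push_cast at this
    linarith
  have hqR : (1 : ℝ) ≤ q := by exact_mod_cast hq1
  have htR : (2 : ℝ) ≤ t := by exact_mod_cast ht
  have hmq : (q : ℝ) ≤ (n : ℝ) - t + 1 := by
    have : ((q + t : ℕ) : ℝ) ≤ ((n + 1 : ℕ) : ℝ) := by exact_mod_cast hqt
    push_cast at this
    linarith
  have hm0 : 0 < (n : ℝ) - t + 1 := by linarith
  have hn0 : 0 < (n : ℝ) := by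
    have : 0 < n := by omega
    exact_mod_cast this
  have hdesc := LOW_desc n q t hq1 hqt _ rfl hm0 hmq _ rfl (t - 1) (by omega)
  have hfac : 0 < ((t - 1).factorial : ℝ) := by exact_mod_cast (t - 1).factorial_pos
  rw [Nat.descFactorial_eq_factorial_mul_choose, Nat.descFactorial_eq_factorial_mul_choose,
    Nat.cast_mul, Nat.cast_mul] at hdesc
  have h1 : (1 - ((q : ℝ) - 1) / ((n : ℝ) - t + 1)) ^ (t - 1) * ((n - 1).choose (t - 1) : ℝ) ≤
      ((n - q).choose (t - 1) : ℝ) := by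
    refine le_of_mul_le_mul_left ?_ hfac
    calc ((t - 1).factorial : ℝ) * ((1 - ((q : ℝ) - 1) / ((n : ℝ) - t + 1)) ^ (t - 1) *
        ((n - 1).choose (t - 1) : ℝ)) = (1 - ((q : ℝ) - 1) / ((n : ℝ) - t + 1)) ^ (t - 1) *
        (((t - 1).factorial : ℝ) * ((n - 1).choose (t - 1) : ℝ)) := by ring
      _ ≤ _ := hdesc
  have hkey := LOW_key t q r ((n : ℝ) - t + 1) n (t - 1)
    (by rw [Nat.cast_sub (by omega)]; push_cast; ring) htR (by rw [hnR]; ring) hnR
    (Nat.cast_nonneg r) (by exact_mod_cast hrt.le) hqR hm0 hn0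
  have hch : (n : ℝ) * ((n - 1).choose (t - 1) : ℝ) = t * (n.choose t : ℝ) := by
    have h2 := Nat.add_one_mul_choose_eq (n - 1) (t - 1)
    rw [show n - 1 + 1 = n by omega, show t - 1 + 1 = t by omega] at h2
    have : ((n * (n - 1).choose (t - 1) : ℕ) : ℝ) = ((n.choose t * t : ℕ) : ℝ) := by
      rw [h2]
    push_cast at this
    linarith
  unfold MV
  rw [hqd, Nat.cast_mul]
  have hC : 0 ≤ (n.choose t : ℝ) := Nat.cast_nonneg _
  calc (1 - 1 / (t : ℝ)) ^ (t - 1) * (n.choose t : ℝ) ≤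
      ((t : ℝ) * q / n * (1 - ((q : ℝ) - 1) / ((n : ℝ) - t + 1)) ^ (t - 1)) * (n.choose t : ℝ) :=
        mul_le_mul_of_nonneg_right hkey hC
    _ = (q : ℝ) * ((1 - ((q : ℝ) - 1) / ((n : ℝ) - t + 1)) ^ (t - 1) *
        ((t : ℝ) * (n.choose t : ℝ) / n)) := by ring
    _ = (q : ℝ) * ((1 - ((q : ℝ) - 1) / ((n : ℝ) - t + 1)) ^ (t - 1) *
        ((n - 1).choose (t - 1) : ℝ)) := by
          rw [← hch, mul_div_cancel_left₀ _ hn0.ne']
    _ ≤ (q : ℝ) * ((n - q).choose (t - 1) : ℝ) :=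
        mul_le_mul_of_nonneg_left h1 (by linarith)

end Pool.Agent.helper66.NK
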